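import Mathlib

set_option autoImplicit false

open MeasureTheory ProbabilityTheory Filter Topology

namespace Pool.Agent.Results.MP_e9a5a5_pr.AllFixed

theorem result (μ : Measure ℝ) [IsProbabilityMeasure μ]
    (hfix : ∀ x : ℝ, cdf μ x =
      (1 - (1 / 2) * (1 - (cdf μ (x - 2) + cdf μ x) / 2) ^ 2
         - (1 / 2) * (1 - (cdf μ x + cdf μ (x + 2)) / 2) ^ 2) ^ 2) (x : ℝ) :
    cdf μ (x + 2) = 2 * √(cdf μ x) - cdf μ x := by
  set F : ℝ → ℝ := fun y => cdf μ y with hF
  have F0 : ∀ y, 0 ≤ F y := cdf_nonneg μ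
  have F1 : ∀ y, F y ≤ 1 := cdf_le_one μ
  let u : ℝ → ℝ := fun y => 1 - (F y + F (y + 2)) / 2
  let t : ℝ → ℝ := fun y => 1 - √(F y)
  let e : ℝ → ℝ := fun y => u y - t y
  let a : ℝ → ℝ := fun y => (u y + t y) / 2
  have u0 : ∀ y, 0 ≤ u y ∧ u y ≤ 1 := fun y => by
    simp only [u]; constructor <;> linarith [F0 y, F1 y, F0 (y + 2), F1 (y + 2)]
  have t0 : ∀ y, 0 ≤ t y ∧ t y ≤ 1 := fun y => by
    simp only [t]
    constructor <;> linarith [Real.sqrt_nonneg (F y), Real.sqrt_le_one.2 (F1 y)]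
  have hsq : ∀ y, F y = (1 - t y) ^ 2 := fun y => by simp [t, Real.sq_sqrt (F0 y)]
  have ht : ∀ y, t (y + 2) = (u y ^ 2 + u (y + 2) ^ 2) / 2 := fun y => by
    have h := hfix (y + 2)
    rw [add_sub_cancel_right] at h
    have h1 : F (y + 2) = (1 - (u y ^ 2 + u (y + 2) ^ 2) / 2) ^ 2 := by
      simp only [u, hF]; rw [h]; congr 1
      rw [← h]; ring
    have h2 : 0 ≤ 1 - (u y ^ 2 + u (y + 2) ^ 2) / 2 := by
      nlinarith [u0 y, u0 (y + 2)]
    simp only [t]
    rw [h1, Real.sqrt_sq h2]; ring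
  have hrec : ∀ y, e y * (1 - a y) = e (y + 2) * a (y + 2) := fun y => by
    have h1 : u y = 1 - ((1 - t y) ^ 2 + (1 - t (y + 2)) ^ 2) / 2 := by
      simp only [u]; rw [← hsq, ← hsq]
    have h2 := ht y
    simp only [e, a]
    nlinarith
  have hl : ∀ c : ℝ, Tendsto (fun k : ℕ => F (x + 2 * k + c)) atTop (𝓝 1) := fun c =>
    (tendsto_cdf_atTop μ).comp (tendsto_atTop_add_const_right _ _ (tendsto_atTop_add_const_left _ _
      (tendsto_natCast_atTop_atTop.const_mul_atTop (by norm_num))))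
  have hu : Tendsto (fun k : ℕ => u (x + 2 * k)) atTop (𝓝 0) := by
    have := (((hl 0).add (hl 2)).div_const 2).const_sub 1
    simpa [u] using this
  have htt : Tendsto (fun k : ℕ => t (x + 2 * k)) atTop (𝓝 0) := by
    have := (hl 0).sqrt.const_sub 1
    simpa [t] using this
  have he : Tendsto (fun k : ℕ => |e (x + 2 * k)|) atTop (𝓝 0) := by
    simpa [e] using (hu.sub htt).abs
  have ha : ∀ᶠ k : ℕ in atTop, a (x + 2 * k) < 1 / 2 := by
    have := (hu.add htt).div_const 2
    exact this.eventually_lt_const (by norm_num)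
  obtain ⟨N, hN⟩ := eventually_atTop.1 ha
  have step : ∀ k : ℕ, x + 2 * ((k + 1 : ℕ) : ℝ) = x + 2 * k + 2 := fun k => by push_cast; ring
  have hmono : ∀ k, N ≤ k → |e (x + 2 * N)| ≤ |e (x + 2 * k)| := by
    intro k hk
    induction k, hk using Nat.le_induction with
    | base => exact le_rfl
    | succ k hk ih =>
      have h1 := hN k hk
      have h2 := hN (k + 1) (by omega)
      have h3 := congrArg abs (hrec (x + 2 * k))
      rw [step] at h2 ⊢
      have h4 : 0 ≤ a (x + 2 * k + 2) := by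
        simp only [a]; linarith [(u0 (x + 2 * k + 2)).1, (t0 (x + 2 * k + 2)).1]
      rw [abs_mul, abs_mul, abs_of_nonneg h4, abs_of_nonneg (by linarith : 0 ≤ 1 - a (x + 2 * k))]
        at h3
      nlinarith [abs_nonneg (e (x + 2 * k)), abs_nonneg (e (x + 2 * k + 2))]
  have hN0 : e (x + 2 * N) = 0 :=
    abs_nonpos_iff.1 (ge_of_tendsto he (eventually_atTop.2 ⟨N, hmono⟩))
  have hback : ∀ k : ℕ, e (x + 2 * k) = 0 → e x = 0 := by
    intro k
    induction k with
    | zero => simp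
    | succ k ih =>
      intro h
      apply ih
      have h1 := hrec (x + 2 * k)
      rw [← step, h, zero_mul, mul_eq_zero] at h1
      rcases h1 with h1 | h1
      · exact h1
      · simp only [a, e] at h1 ⊢
        linarith [(u0 (x + 2 * k)).2, (t0 (x + 2 * k)).2]
  have := hback N hN0
  simp only [e, u, t, hF] at this
  linarith

end Pool.Agent.Results.MP_e9a5a5_pr.AllFixed
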